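import Mathlib
import Pool.Agent.CBG.StmtsA

/-!
# Squad CBG: row KER
-/

set_option autoImplicit false
set_option maxSynthPendingDepth 3

open scoped Manifold ContDiff Topology
open Set Filter MeasureTheory

namespace Pool.Agent.CBG.H95

open Pool.Agent.CBG

/-- the linear map `c ↦ B (X c)` -/
noncomputable def bX {n : ℕ} (B : Bil (Ed n)) (X : ℝ × ℝ →L[ℝ] Ed n) :
    ℝ × ℝ →ₗ[ℝ] (Ed n →ₗ[ℝ] ℝ) where
  toFun c := (B (X c)).toLinearMap
  map_add' c d := by
    ext z
    simp
  map_smul' r c := by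
    ext z
    simp

theorem ker : KerStmt := by
  intro n B hB X hX α Z hZ
  by_contra hcon
  have hcon' : ∀ (V : Ed n) (c : ℝ × ℝ), (∀ z, B (X c) z = α V z) →
      ¬ LinearIndependent ℝ ![V, Z] := fun V c h hl => hcon ⟨V, c, hl, h⟩
  have hdim : Module.finrank ℝ (LinearMap.range (LinearMap.coprod α (-(bX B X)))) +
      Module.finrank ℝ (LinearMap.ker (LinearMap.coprod α (-(bX B X)))) = n + 2 := by
    rw [LinearMap.finrank_range_add_finrank_ker, Module.finrank_prod, Module.finrank_prod,
      finrank_euclideanSpace_fin, Module.finrank_self]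
  have hr : Module.finrank ℝ (LinearMap.range (LinearMap.coprod α (-(bX B X)))) ≤ n := by
    refine (Submodule.finrank_le _).trans ?_
    have h1 : Module.finrank ℝ (Ed n →ₗ[ℝ] ℝ) = Module.finrank ℝ (Ed n) :=
      Subspace.dual_finrank_eq
    rw [h1, finrank_euclideanSpace_fin]
  have hmem : ∀ p : Ed n × (ℝ × ℝ), p ∈ LinearMap.ker (LinearMap.coprod α (-(bX B X))) →
      ∀ z, B (X p.2) z = α p.1 z := by
    intro p hp z
    rw [LinearMap.mem_ker, LinearMap.coprod_apply] at hp
    have h2 := congrArg (fun f : Ed n →ₗ[ℝ] ℝ => f z) hp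
    have h3 : α p.1 z - B (X p.2) z = 0 := by
      have h4 : (α p.1 + (-(bX B X)) p.2) z = α p.1 z - B (X p.2) z := by
        rw [LinearMap.add_apply, LinearMap.neg_apply, LinearMap.neg_apply, sub_eq_add_neg]
        rfl
      rw [← h4]
      exact h2
    exact (sub_eq_zero.1 h3).symm
  have hinj : Function.Injective ((LinearMap.fst ℝ (Ed n) (ℝ × ℝ)).comp
      (LinearMap.ker (LinearMap.coprod α (-(bX B X)))).subtype) := by
    rw [injective_iff_map_eq_zero]
    rintro ⟨⟨V, c⟩, hp⟩ h0
    have hV : V = 0 := h0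
    have h5 := hmem (V, c) hp
    have h6 : B (X c) (X c) = 0 := by
      rw [h5 (X c), hV, map_zero, LinearMap.zero_apply]
    have h7 : X c = 0 := by
      by_contra h8
      exact absurd h6 (hB _ h8).ne'
    have h9 : c = 0 := hX (h7.trans (map_zero X).symm)
    apply Subtype.ext
    show (V, c) = (0 : Ed n × (ℝ × ℝ))
    rw [hV, h9]
    rfl
  have hle : LinearMap.range ((LinearMap.fst ℝ (Ed n) (ℝ × ℝ)).comp
      (LinearMap.ker (LinearMap.coprod α (-(bX B X)))).subtype) ≤ Submodule.span ℝ {Z} := by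
    rintro V ⟨⟨⟨V', c⟩, hp⟩, rfl⟩
    have h5 := hmem (V', c) hp
    have h6 := hcon' V' c h5
    rw [LinearIndependent.pair_symm_iff, LinearIndependent.pair_iff' hZ] at h6
    push Not at h6
    obtain ⟨a, ha⟩ := h6
    rw [Submodule.mem_span_singleton]
    exact ⟨a, ha⟩
  have h10 := LinearMap.finrank_range_of_inj hinj
  have h11 := Submodule.finrank_mono hle
  rw [finrank_span_singleton hZ, h10] at h11
  omega

end Pool.Agent.CBG.H95
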